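import Pool.Agent.H.MP_bb4c62_an.helper6.NDefs

/-!
An elementary lemma about infinite subsets of `ℂ × ℂ`.
-/

namespace Pool.Agent.H.MP_bb4c62_an.helper6.NL

open Complex Metric Set Filter Topology
open Pool.Agent.H.MP_bb4c62_an.helper6.Perturb
open Pool.Agent.H.MP_bb4c62_an.helper6.Gadgets

variable {X : Type*} [NormedAddCommGroup X] [NormedSpace ℂ X]
variable {Y : Type*} [NormedAddCommGroup Y] [NormedSpace ℂ Y]

theorem plane_aux1 (M : Set (ℂ × ℂ)) (h0 : ((0 : ℂ), (0 : ℂ)) ∈ M)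
    (h1 : ((0 : ℂ), (1 : ℂ)) ∈ M)
    (hvert : ∀ a e1 e2 e3 : ℂ, (a, e1) ∈ M → (a, e2) ∈ M → (a, e3) ∈ M →
      e1 = e2 ∨ e1 = e3 ∨ e2 = e3)
    (hinv : ∀ α β γ l : ℂ, l ≠ 0 → ∀ p1 p2 p3 : ℂ × ℂ, p1 ∈ M → p2 ∈ M → p3 ∈ M →
      p1 ≠ p2 → p1 ≠ p3 → p2 ≠ p3 →
      (p1.1 + α, l * p1.2 + β * p1.1 + γ) ∈ M → (p2.1 + α, l * p2.2 + β * p2.1 + γ) ∈ M →
      (p3.1 + α, l * p3.2 + β * p3.1 + γ) ∈ M →
      ∀ p : ℂ × ℂ, p ∈ M → (p.1 + α, l * p.2 + β * p.1 + γ) ∈ M)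
    (e0 s : ℂ) (p1 p2 p3 : ℂ × ℂ) (m1 : p1 ∈ M) (m2 : p2 ∈ M) (m3 : p3 ∈ M)
    (d12 : p1 ≠ p2) (d13 : p1 ≠ p3) (d23 : p2 ≠ p3)
    (l1 : p1.2 = e0 + s * p1.1) (l2 : p2.2 = e0 + s * p2.1) (l3 : p3.2 = e0 + s * p3.1) :
    False := by
  have key : ∀ l : ℂ, l ≠ 0 → ∀ p : ℂ × ℂ, p ∈ M →
      (p.1, l * p.2 + ((1 - l) * s) * p.1 + (1 - l) * e0) ∈ M := by
    intro l hl p hp
    have fx : ∀ q : ℂ × ℂ, q ∈ M → q.2 = e0 + s * q.1 →
        (q.1 + 0, l * q.2 + ((1 - l) * s) * q.1 + (1 - l) * e0) ∈ M := by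
      intro q hq hq2
      have : (q.1 + 0, l * q.2 + ((1 - l) * s) * q.1 + (1 - l) * e0) = q := by
        ext
        · simp
        · simp only
          rw [hq2]; ring
      rw [this]; exact hq
    have h := hinv 0 ((1 - l) * s) ((1 - l) * e0) l hl p1 p2 p3 m1 m2 m3 d12 d13 d23
      (fx p1 m1 l1) (fx p2 m2 l2) (fx p3 m3 l3) p hp
    simpa using h
  -- a point on the vertical axis which is not on the line
  have hex : ∃ e : ℂ, e ≠ e0 ∧ ((0 : ℂ), e) ∈ M := by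
    by_cases h : e0 = 0
    · exact ⟨1, by rw [h]; exact one_ne_zero, h1⟩
    · exact ⟨0, fun h' => h h'.symm, h0⟩
  obtain ⟨e, he, hm⟩ := hex
  have k1 := key 1 one_ne_zero _ hm
  have k2 := key 2 two_ne_zero _ hm
  have k3 := key 3 three_ne_zero _ hm
  have hd : e - e0 ≠ 0 := sub_ne_zero.mpr he
  rcases hvert _ _ _ _ k1 k2 k3 with h | h | h
  · apply hd; simp only at h; linear_combination -h
  · apply hd; simp only at h; linear_combination -h / 2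
  · apply hd; simp only at h; linear_combination -h

theorem plane_lemma (M : Set (ℂ × ℂ)) (hinf : M.Infinite) (h0 : ((0 : ℂ), (0 : ℂ)) ∈ M)
    (h1 : ((0 : ℂ), (1 : ℂ)) ∈ M)
    (hvert : ∀ a e1 e2 e3 : ℂ, (a, e1) ∈ M → (a, e2) ∈ M → (a, e3) ∈ M →
      e1 = e2 ∨ e1 = e3 ∨ e2 = e3)
    (hinv : ∀ α β γ l : ℂ, l ≠ 0 → ∀ p1 p2 p3 : ℂ × ℂ, p1 ∈ M → p2 ∈ M → p3 ∈ M →
      p1 ≠ p2 → p1 ≠ p3 → p2 ≠ p3 →
      (p1.1 + α, l * p1.2 + β * p1.1 + γ) ∈ M → (p2.1 + α, l * p2.2 + β * p2.1 + γ) ∈ M →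
      (p3.1 + α, l * p3.2 + β * p3.1 + γ) ∈ M →
      ∀ p : ℂ × ℂ, p ∈ M → (p.1 + α, l * p.2 + β * p.1 + γ) ∈ M) : False := by
  -- points of `M` on the vertical axis
  have hax : ∀ p ∈ M, p.1 = 0 → p = (0, 0) ∨ p = (0, 1) := by
    rintro ⟨a, e⟩ hp ha
    simp only at ha
    subst ha
    rcases hvert 0 0 1 e h0 h1 hp with h | h | h
    · exact absurd h zero_ne_one
    · left; rw [← h]
    · right; rw [← h]
  have hinf' : (M \ {((0 : ℂ), (0 : ℂ)), ((0 : ℂ), (1 : ℂ))}).Infinite :=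
    hinf.sdiff (by simp)
  obtain ⟨t, ht, hcard⟩ := hinf'.exists_subset_card_eq 3
  obtain ⟨p1, p2, p3, d12, d13, d23, rfl⟩ := Finset.card_eq_three.mp hcard
  have hp : ∀ p ∈ ({p1, p2, p3} : Finset (ℂ × ℂ)), p ∈ M ∧ p.1 ≠ 0 := by
    intro p hp
    have h := ht (Finset.mem_coe.mpr hp)
    refine ⟨h.1, fun h2 => h.2 ?_⟩
    rcases hax p h.1 h2 with h3 | h3 <;> simp [h3]
  obtain ⟨m1, a1⟩ := hp p1 (by simp)
  obtain ⟨m2, a2⟩ := hp p2 (by simp)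
  obtain ⟨m3, a3⟩ := hp p3 (by simp)
  -- the involutions
  have hσ : ∀ p ∈ M, p.1 ≠ 0 → ∀ q ∈ M,
      (q.1, -q.2 + ((2 * p.2 - 1) / p.1) * q.1 + 1) ∈ M := by
    intro p hp ha q hq
    have e1 : (((0 : ℂ), (0 : ℂ)).1 + 0,
        (-1) * ((0 : ℂ), (0 : ℂ)).2 + ((2 * p.2 - 1) / p.1) * ((0 : ℂ), (0 : ℂ)).1 + 1) ∈ M := by
      simpa using h1
    have e2 : (((0 : ℂ), (1 : ℂ)).1 + 0,
        (-1) * ((0 : ℂ), (1 : ℂ)).2 + ((2 * p.2 - 1) / p.1) * ((0 : ℂ), (1 : ℂ)).1 + 1) ∈ M := by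
      simpa using h0
    have e3 : (p.1 + 0, (-1) * p.2 + ((2 * p.2 - 1) / p.1) * p.1 + 1) ∈ M := by
      have : (p.1 + 0, (-1) * p.2 + ((2 * p.2 - 1) / p.1) * p.1 + 1) = p := by
        ext
        · simp
        · simp only
          rw [div_mul_cancel₀ _ ha]; ring
      rw [this]; exact hp
    have n1 : ((0 : ℂ), (0 : ℂ)) ≠ ((0 : ℂ), (1 : ℂ)) := by simp
    have n2 : ((0 : ℂ), (0 : ℂ)) ≠ p := fun h => ha (by rw [← h])
    have n3 : ((0 : ℂ), (1 : ℂ)) ≠ p := fun h => ha (by rw [← h])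
    have h := hinv 0 ((2 * p.2 - 1) / p.1) 1 (-1) (by norm_num) _ _ _ h0 h1 hp n1 n2 n3 e1 e2 e3
      q hq
    simpa using h
  have hs : ∀ p ∈ M, p.1 ≠ 0 → ∀ p' ∈ M, p'.1 ≠ 0 →
      (2 * p.2 - 1) / p.1 = (2 * p'.2 - 1) / p'.1 := by
    intro p hp ha p' hp' ha'
    set r := (2 * p.2 - 1) / p.1 - (2 * p'.2 - 1) / p'.1 with hr
    have sh : ∀ q ∈ M, (q.1, q.2 + r * q.1) ∈ M := by
      intro q hq
      have h := hσ p hp ha _ (hσ p' hp' ha' q hq)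
      have e : (q.1, q.2 + r * q.1) = (q.1, -(-q.2 + ((2 * p'.2 - 1) / p'.1) * q.1 + 1) +
          ((2 * p.2 - 1) / p.1) * q.1 + 1) := by
        ext
        · rfl
        · simp only [hr]; ring
      rw [e]; exact h
    have s1 := sh p hp
    have s2 := sh _ s1
    have hra : r * p.1 = 0 := by
      have hp0 : (p.1, p.2) ∈ M := hp
      rcases hvert _ _ _ _ hp0 s1 s2 with h | h | h
      · linear_combination -h
      · simp only at h; linear_combination -h / 2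
      · simp only at h; linear_combination -h
    have hr0 : r = 0 := (mul_eq_zero.mp hra).resolve_right ha
    exact sub_eq_zero.mp hr0
  -- three points on a line
  have hline : ∀ p ∈ M, p.1 ≠ 0 → p.2 = 1 / 2 + ((2 * p1.2 - 1) / p1.1 / 2) * p.1 := by
    intro p hp ha
    rw [hs p1 m1 a1 p hp ha]
    field_simp
    ring
  exact plane_aux1 M h0 h1 hvert hinv (1 / 2) ((2 * p1.2 - 1) / p1.1 / 2) p1 p2 p3 m1 m2 m3
    d12 d13 d23 (hline p1 m1 a1) (hline p2 m2 a2) (hline p3 m3 a3)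

end Pool.Agent.H.MP_bb4c62_an.helper6.NL
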